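import Mathlib

/-!
# Wythoff Nim with multiples of knight's moves: every row has one P-position, and the slopes are
bounded

Every row `a` contains exactly one P-position `(a, b)`, and `b ≤ 3 a + a / 2`. So the set `L` of the
limit points of the slopes `b / a` of the P-positions with `0 < a < b` is a nonempty subset of
`[1, 7 / 2]`.

Outline: the positions `(a, b')` below the P-position of the row `a` have a move to a P-position in a
row `c < a`; for each `c` there are at most four such positions, and at most three if `a - c` is odd.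
-/

set_option autoImplicit false

namespace Pool.Agent.Results.MP_8f6224_co.SlopesBounded

/-- There is a move from the position `p` to the position `q`. -/
def Move (p q : ℕ × ℕ) : Prop :=
  ∃ x, 1 ≤ x ∧ ((p.1 = q.1 ∧ p.2 = q.2 + x) ∨ (p.1 = q.1 + x ∧ p.2 = q.2) ∨
    (p.1 = q.1 + x ∧ p.2 = q.2 + x) ∨ (p.1 = q.1 + x ∧ p.2 = q.2 + 2 * x) ∨
    (p.1 = q.1 + 2 * x ∧ p.2 = q.2 + x))

/-- `P` is the set of the P-positions. -/
def IsPPos (P : Set (ℕ × ℕ)) : Prop := ∀ p, p ∈ P ↔ ∀ q, Move p q → q ∉ P

/-- The finite limit points of the slopes `b / a` of the positions `(a, b)` of `P` with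
`0 < a < b`. -/
def slopes (P : Set (ℕ × ℕ)) : Set ℝ :=
  {l | ∀ ε : ℝ, 0 < ε → ∀ N : ℕ, ∃ a b : ℕ, N ≤ a ∧ 0 < a ∧ a < b ∧ (a, b) ∈ P ∧
    |(b : ℝ) / a - l| < ε}

theorem move_lt {p q : ℕ × ℕ} (h : Move p q) : q.1 + q.2 < p.1 + p.2 := by
  obtain ⟨x, hx, h⟩ := h
  omega

theorem unique {P P' : Set (ℕ × ℕ)} (hP : IsPPos P) (hP' : IsPPos P') :
    ∀ p, p ∈ P ↔ p ∈ P' := by
  intro p
  induction hn : p.1 + p.2 using Nat.strong_induction_on generalizing p with
  | _ n ih =>
  subst hn
  rw [hP p, hP' p]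
  exact forall_congr' fun q => imp_congr_right fun hq => not_congr (ih _ (move_lt hq) q rfl)

theorem swap_mem {P : Set (ℕ × ℕ)} (hP : IsPPos P) (a b : ℕ) (h : (a, b) ∈ P) : (b, a) ∈ P := by
  have h1 : IsPPos {p | p.swap ∈ P} := by
    intro p
    show p.swap ∈ P ↔ ∀ q, Move p q → q.swap ∉ P
    rw [hP]
    have hsw : ∀ p q : ℕ × ℕ, Move p q → Move p.swap q.swap := by
      rintro p q ⟨x, hx, h⟩
      refine ⟨x, hx, ?_⟩
      simp only [Prod.fst_swap, Prod.snd_swap]
      tauto
    constructor
    · intro h q hq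
      exact h _ (hsw _ _ hq)
    · intro h q hq
      have := h q.swap (by simpa using hsw _ _ hq)
      simpa using this
  exact (unique hP h1 (b, a)).2 h

theorem row_unique {P : Set (ℕ × ℕ)} (hP : IsPPos P) {a b b' : ℕ} (h : (a, b) ∈ P)
    (h' : (a, b') ∈ P) : b = b' := by
  rcases lt_trichotomy b b' with hlt | heq | hgt
  · exact absurd h ((hP _).1 h' (a, b) ⟨b' - b, by omega, Or.inl ⟨rfl, by simp; omega⟩⟩)
  · exact heq
  · exact absurd h' ((hP _).1 h (a, b') ⟨b - b', by omega, Or.inl ⟨rfl, by simp; omega⟩⟩)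

theorem zero_mem {P : Set (ℕ × ℕ)} (hP : IsPPos P) : (0, 0) ∈ P := by
  rw [hP]
  intro q hq
  have := move_lt hq
  simp at this

theorem diag {P : Set (ℕ × ℕ)} (hP : IsPPos P) {a : ℕ} (ha : 0 < a) : (a, a) ∉ P := by
  intro h
  refine (hP _).1 h (0, 0) ⟨a, ha, Or.inr (Or.inr (Or.inl ⟨?_, ?_⟩))⟩ (zero_mem hP)
  · simp
  · simp

/-- The number of the rows below `a` at an even distance. -/
theorem card_even (a : ℕ) : ((Finset.range a).filter fun c => 2 ∣ a - c).card ≤ a / 2 := by
  have : ((Finset.range a).filter fun c => 2 ∣ a - c).card ≤ (Finset.Icc 1 (a / 2)).card := by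
    refine Finset.card_le_card_of_injOn (fun c => (a - c) / 2) ?_ ?_
    · intro c hc
      have h := Finset.mem_filter.1 (Finset.mem_coe.1 hc)
      have h1 := Finset.mem_range.1 h.1
      obtain ⟨k, hk⟩ := h.2
      show (a - c) / 2 ∈ (Finset.Icc 1 (a / 2) : Set ℕ)
      rw [Finset.mem_coe, Finset.mem_Icc]
      omega
    · intro c hc d hd hcd
      have h := Finset.mem_filter.1 (Finset.mem_coe.1 hc)
      have h1 := Finset.mem_range.1 h.1
      have h' := Finset.mem_filter.1 (Finset.mem_coe.1 hd)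
      have h1' := Finset.mem_range.1 h'.1
      obtain ⟨k, hk⟩ := h.2
      obtain ⟨k', hk'⟩ := h'.2
      have : (a - c) / 2 = (a - d) / 2 := hcd
      omega
  simpa using this

theorem row_exists {P : Set (ℕ × ℕ)} (hP : IsPPos P) (a : ℕ) :
    ∃ b, b ≤ 3 * a + a / 2 ∧ (a, b) ∈ P := by
  classical
  by_contra hcon
  push Not at hcon
  -- the P-positions in the rows
  let r : ℕ → ℕ := fun c => if h : ∃ d, (c, d) ∈ P then h.choose else 0
  have hr : ∀ c d, (c, d) ∈ P → r c = d := by
    intro c d h
    have h' : ∃ d, (c, d) ∈ P := ⟨d, h⟩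
    have : r c = h'.choose := dif_pos h'
    rw [this]
    exact row_unique hP h'.choose_spec h
  have hsub : Finset.range (3 * a + a / 2 + 1) ⊆
      ((Finset.range a).image r ∪ (Finset.range a).image fun c => r c + (a - c)) ∪
      (((Finset.range a).image fun c => r c + 2 * (a - c)) ∪
      ((Finset.range a).filter fun c => 2 ∣ a - c).image fun c => r c + (a - c) / 2) := by
    intro b hb
    have hb' : b ≤ 3 * a + a / 2 := by
      have := Finset.mem_range.1 hb
      omega
    have hbP := hcon b hb'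
    rw [hP] at hbP
    push Not at hbP
    obtain ⟨⟨c, d⟩, ⟨x, hx, h⟩, hq⟩ := hbP
    have hrc := hr c d hq
    simp only at h
    simp only [Finset.mem_union, Finset.mem_image, Finset.mem_range, Finset.mem_filter]
    rcases h with ⟨h1, h2⟩ | ⟨h1, h2⟩ | ⟨h1, h2⟩ | ⟨h1, h2⟩ | ⟨h1, h2⟩
    · exfalso
      subst h1
      exact hcon d (by omega) hq
    · exact Or.inl (Or.inl ⟨c, by omega, by omega⟩)
    · exact Or.inl (Or.inr ⟨c, by omega, by omega⟩)
    · exact Or.inr (Or.inl ⟨c, by omega, by omega⟩)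
    · exact Or.inr (Or.inr ⟨c, ⟨by omega, ⟨x, by omega⟩⟩, by omega⟩)
  have hcard := Finset.card_le_card hsub
  have h1 := Finset.card_union_le
    ((Finset.range a).image r ∪ (Finset.range a).image fun c => r c + (a - c))
    (((Finset.range a).image fun c => r c + 2 * (a - c)) ∪
      ((Finset.range a).filter fun c => 2 ∣ a - c).image fun c => r c + (a - c) / 2)
  have h2 := Finset.card_union_le ((Finset.range a).image r)
    ((Finset.range a).image fun c => r c + (a - c))
  have h3 := Finset.card_union_le ((Finset.range a).image fun c => r c + 2 * (a - c))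
    (((Finset.range a).filter fun c => 2 ∣ a - c).image fun c => r c + (a - c) / 2)
  have h4 : ((Finset.range a).image r).card ≤ a := by
    simpa using Finset.card_image_le (s := Finset.range a) (f := r)
  have h5 : ((Finset.range a).image fun c => r c + (a - c)).card ≤ a := by
    simpa using Finset.card_image_le (s := Finset.range a) (f := fun c => r c + (a - c))
  have h6 : ((Finset.range a).image fun c => r c + 2 * (a - c)).card ≤ a := by
    simpa using Finset.card_image_le (s := Finset.range a) (f := fun c => r c + 2 * (a - c))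
  have h7 : (((Finset.range a).filter fun c => 2 ∣ a - c).image
      fun c => r c + (a - c) / 2).card ≤ a / 2 :=
    Finset.card_image_le.trans (card_even a)
  rw [Finset.card_range] at hcard
  omega

theorem upper_exists {P : Set (ℕ × ℕ)} (hP : IsPPos P) (N : ℕ) :
    ∃ a b : ℕ, N ≤ a ∧ 0 < a ∧ a < b ∧ (a, b) ∈ P := by
  choose r hr hrP using row_exists hP
  -- a row which does not belong to the P-position of a row below `N`
  obtain ⟨M, hM⟩ := Infinite.exists_notMem_finset (Finset.range (N + 1) ∪ (Finset.range (N + 1)).image r)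
  rw [Finset.mem_union, not_or] at hM
  obtain ⟨hM1, hM2⟩ := hM
  rw [Finset.mem_range, not_lt] at hM1
  rcases lt_trichotomy (r M) M with h | h | h
  · have h1 := swap_mem hP _ _ (hrP M)
    have h2 : r (r M) = M := row_unique hP (hrP (r M)) h1
    refine ⟨r M, M, ?_, ?_, h, h1⟩
    · by_contra hc
      exact hM2 (Finset.mem_image.2 ⟨r M, Finset.mem_range.2 (by omega), h2⟩)
    · by_contra hc
      exact hM2 (Finset.mem_image.2 ⟨r M, Finset.mem_range.2 (by omega), h2⟩)
  · exact absurd (by have := hrP M; rwa [h] at this) (diag hP (show 0 < M by omega))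
  · exact ⟨M, r M, by omega, by omega, h, hrP M⟩

/-- **The theorem.** Let `P` be the set of the P-positions. Every row contains exactly one
P-position, `P` is symmetric, `b ≤ 3 a + a / 2` (rounded down) for all `(a, b)` in `P`, and the set
of the limit points of the slopes `b / a` of the P-positions with `0 < a < b` is nonempty and contained
in `[1, 7 / 2]`. -/
theorem result (P : Set (ℕ × ℕ)) (hP : IsPPos P) :
    (∀ a, ∃! b, (a, b) ∈ P) ∧ (∀ a b, (a, b) ∈ P → (b, a) ∈ P) ∧
    (∀ a b, (a, b) ∈ P → b ≤ 3 * a + a / 2) ∧ (slopes P).Nonempty ∧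
    slopes P ⊆ Set.Icc 1 (7 / 2) := by
  have hbound : ∀ a b, (a, b) ∈ P → b ≤ 3 * a + a / 2 := by
    intro a b h
    obtain ⟨b', hb', h'⟩ := row_exists hP a
    rwa [row_unique hP h h']
  have hIcc : ∀ a b : ℕ, 0 < a → a < b → (a, b) ∈ P → (b : ℝ) / a ∈ Set.Icc (1 : ℝ) (7 / 2) := by
    intro a b ha hab h
    have ha' : (0 : ℝ) < a := by exact_mod_cast ha
    have h1 := hbound a b h
    have h2 : 2 * b ≤ 7 * a := by omega
    have h2' : (2 : ℝ) * b ≤ 7 * a := by exact_mod_cast h2
    have h3 : (a : ℝ) < b := by exact_mod_cast hab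
    constructor
    · rw [le_div_iff₀ ha']; linarith
    · rw [div_le_iff₀ ha']; linarith
  refine ⟨fun a => ?_, swap_mem hP, hbound, ?_, ?_⟩
  · obtain ⟨b, -, hb⟩ := row_exists hP a
    exact ⟨b, hb, fun b' hb' => row_unique hP hb' hb⟩
  · choose α β h1 h2 h3 h4 using upper_exists hP
    obtain ⟨l, -, φ, hφ, hl⟩ := (isCompact_Icc (a := (1 : ℝ)) (b := 7 / 2)).tendsto_subseq
      (x := fun N => (β N : ℝ) / α N) fun N => hIcc _ _ (h2 N) (h3 N) (h4 N)
    refine ⟨l, fun ε hε N => ?_⟩
    rw [Metric.tendsto_atTop] at hl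
    obtain ⟨K, hK⟩ := hl ε hε
    have h5 := hK (max K N) (le_max_left _ _)
    have h6 : N ≤ φ (max K N) := (le_max_right K N).trans (hφ.id_le _)
    refine ⟨α (φ (max K N)), β (φ (max K N)), h6.trans (h1 _), h2 _, h3 _, h4 _, ?_⟩
    simpa [Real.dist_eq] using h5
  · intro l hl
    constructor
    · by_contra hc
      push Not at hc
      obtain ⟨a, b, -, ha, hab, h, hlt⟩ := hl (1 - l) (by linarith) 0
      have := (hIcc a b ha hab h).1
      rw [abs_lt] at hlt
      linarith [hlt.2]
    · by_contra hc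
      push Not at hc
      obtain ⟨a, b, -, ha, hab, h, hlt⟩ := hl (l - 7 / 2) (by linarith) 0
      have := (hIcc a b ha hab h).2
      rw [abs_lt] at hlt
      linarith [hlt.1]

end Pool.Agent.Results.MP_8f6224_co.SlopesBounded
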